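import Pool.Agent.MWI.StmtsE

/-!
# Squad MWI, row CLO: exchange of the main block
-/

set_option autoImplicit false

namespace Pool.Agent.MWI.H60

open Pool.Agent.Helper14_MV Pool.Agent.Helper2_MV Pool.Agent.MWF Pool.Agent.MWI

theorem zz_filter (j : ℕ) (L : List ℕ) :
    (zz L).filter (fun c => decide (c = 3 * j ∨ c % 3 = 1)) = [] := by
  rw [List.filter_eq_nil_iff]
  intro a ha
  unfold zz at ha
  obtain ⟨i, -, rfl⟩ := List.mem_map.1 ha
  simp only [decide_eq_true_eq]
  omega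

theorem one_filter (j : ℕ) (hj : j < 3) (L N : List ℕ)
    (h : N.Perm (0 :: 0 :: 3 :: 3 :: 6 :: 6 :: zz L)) :
    N.filter (fun c => decide (c = 3 * j ∨ c % 3 = 1)) = [3 * j, 3 * j] := by
  have h1 := h.filter (fun c => decide (c = 3 * j ∨ c % 3 = 1))
  have h2 : (0 :: 0 :: 3 :: 3 :: 6 :: 6 :: zz L).filter
      (fun c => decide (c = 3 * j ∨ c % 3 = 1)) = List.replicate 2 (3 * j) := by
    have e1 : 0 :: 0 :: 3 :: 3 :: 6 :: 6 :: zz L = [0, 0, 3, 3, 6, 6] ++ zz L := rfl
    rw [e1, List.filter_append, zz_filter, List.append_nil]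
    interval_cases j <;> rfl
  rw [h2] at h1
  exact List.perm_replicate.1 h1

theorem pr_mod {L : List ℕ} {c : ℕ} (h : c ∈ pr L) : ∃ i ∈ L, c = 3 * i + 1 ∨ c = 3 * i + 2 := by
  unfold pr at h
  obtain ⟨i, hi, hc⟩ := List.mem_flatMap.1 h
  refine ⟨i, hi, ?_⟩
  simpa using hc

theorem pl_mod {L : List ℕ} {c : ℕ} (h : c ∈ pl L) : ∃ i ∈ L, c = 3 * i + 2 ∨ c = 3 * i + 1 := by
  unfold pl at h
  obtain ⟨i, hi, hc⟩ := List.mem_flatMap.1 h
  refine ⟨i, hi, ?_⟩
  simpa using hc

/-- the projection of `Y` to a copy `k ≠ 3` -/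
theorem y_proj {Q Y : List ℕ} (hYf : Y.filter nz = pr (st3 Q)) (j k : ℕ) (hk : k ≠ 3) :
    ∃ a : ℕ, Y.flatMap (pj j k) = List.replicate a 0 := by
  refine ⟨(Y.flatMap (pj j k)).length, List.eq_replicate_iff.2 ⟨rfl, fun b hb => ?_⟩⟩
  obtain ⟨c, hc, hb⟩ := List.mem_flatMap.1 hb
  unfold pj at hb
  by_cases h0 : c % 3 = 0
  · rw [if_pos h0] at hb
    split_ifs at hb
    · simpa using hb
    · simp at hb
  · rw [if_neg h0] at hb
    have h1 : c ∈ Y.filter nz := List.mem_filter.2 ⟨hc, by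
      unfold nz
      simpa using h0⟩
    rw [hYf] at h1
    obtain ⟨i, hi, h2⟩ := pr_mod h1
    unfold st3 at hi
    obtain ⟨i', -, rfl⟩ := List.mem_map.1 hi
    have h3 : (c / 3) % 7 = 3 := by
      rcases h2 with h2 | h2 <;> omega
    rw [if_neg (by omega)] at hb
    simp at hb

/-- the projection of the right end -/
theorem no_inc {P Q : List ℕ} {m : ℕ} (hm : 1 ≤ m) {B R : List ℕ}
    (hB : B = 0 :: 0 :: zz (List.range m) ∨ B = zz (List.range m) ++ [0, 0])
    (h : Thr P Q m (pl P ++ (B ++ R))) : False := by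
  obtain ⟨h, C, hh, -, -, -, hw⟩ := h
  have h1 := List.append_cancel_left hw
  have h2 : h ≠ [] := by
    intro h0
    rw [h0] at hh
    have := hh.length_eq
    rw [List.length_nil, List.length_range] at this
    omega
  obtain ⟨m', rfl⟩ : ∃ m', m = m' + 1 := ⟨m - 1, by omega⟩
  rcases hB with rfl | rfl
  · obtain ⟨a, h', rfl⟩ := List.exists_cons_of_ne_nil h2
    simp [zz] at h1
  · rw [List.range_succ_eq_map] at h1
    simp [zz] at h1

theorem clo (h1 : PjsStmt) (h2 : MmfStmt) (h3 : CvfStmt) (h4 : ThxStmt) : CloStmt := by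
  intro β P Q m hy s e Y hYn hYf hS s2 e2
  obtain ⟨-, hthr⟩ := h4 β P Q m hy
  obtain ⟨c1, -, -, c4, -⟩ := h3
  obtain ⟨a1, a2, a3, -⟩ := h2 m s e
  obtain ⟨b1, b2, b3, -⟩ := h2 m s2 e2
  obtain ⟨M, hM⟩ : ∃ M, M = MM m s (nm e 0) (nm e 1) (nm e 2) := ⟨_, rfl⟩
  obtain ⟨M2, hM2⟩ : ∃ M2, M2 = MM m s2 (nm e2 0) (nm e2 1) (nm e2 2) := ⟨_, rfl⟩
  rw [← hM] at a1 a2 a3 hS
  rw [← hM2] at b1 b2 b3 ⊢
  have hsplit : ∀ (N : List ℕ) (j k : ℕ), k < 7 →
      (pl (stL P) ++ (N ++ (pr (stQ Q) ++ Y))).flatMap (pj j k) =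
        pl P ++ (N.flatMap (pj j k) ++ ((if k = 3 then [] else pr Q) ++ Y.flatMap (pj j k))) := by
    intro N j k hk
    obtain ⟨p1, p2, -⟩ := h1 P Q m j k hk
    rw [List.flatMap_append, List.flatMap_append, List.flatMap_append, p1, p2]
  constructor
  · intro c hc h0
    refine hS.nam c ?_ h0
    simp only [List.mem_append] at hc ⊢
    rcases hc with hc | hc | hc
    · exact Or.inl hc
    · exact Or.inr (Or.inl (a1.mem_iff.2 (b1.mem_iff.1 hc)))
    · exact Or.inr (Or.inr hc)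
  · have := hS.skl
    simp only [List.filter_append, a2] at this
    simp only [List.filter_append, b2]
    exact this
  · intro j hj
    have := hS.one j hj
    rw [List.filter_append, List.filter_append, one_filter j hj _ _ a1] at this
    rw [List.filter_append, List.filter_append, one_filter j hj _ _ b1]
    exact this
  · intro j hj k hk
    have hr : rl e j < 3 := (c4 e j hj).1
    have hr2 : rl e2 j < 3 := (c4 e2 j hj).1
    by_cases hk3 : k = 3
    · subst hk3
      have t1 : cv s (rl e j) 3 = true := (c1 s (rl e j) hr).1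
      have t2 : cv s2 (rl e2 j) 3 = true := (c1 s2 (rl e2 j) hr2).1
      have e1 := ((a3 j hj).2.2 3 (by norm_num)).1 t1
      have e2 := ((b3 j hj).2.2 3 (by norm_num)).1 t2
      have h5 := (hS.cov j hj 3 (by norm_num)).2 t1
      rw [hsplit _ _ _ (by norm_num), e1] at h5
      rw [hsplit _ _ _ (by norm_num), e2]
      exact ⟨fun _ => t2, fun _ => h5⟩
    · obtain ⟨a, ha⟩ := y_proj hYf j k hk3
      rw [hsplit _ _ _ hk, if_neg hk3, ha]
      cases hcv : cv s2 (rl e2 j) k with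
      | true =>
        rw [((b3 j hj).2.2 k hk).1 hcv]
        refine ⟨fun _ => rfl, fun _ => ⟨0, a, ?_⟩⟩
        have e3 : pl P ++ (0 :: (zz (List.range m) ++ [0]) ++ (pr Q ++ List.replicate a 0)) ++
            List.replicate 0 0 = ww P Q (List.range m) ++ List.replicate a 0 := by
          unfold ww
          simp
        rw [e3]
        exact RR.refl _
      | false =>
        refine ⟨fun hI => ?_, fun h => by cases h⟩
        exact (no_inc hy.one (((b3 j hj).2.2 k hk).2 hcv) (hthr _ hI)).elim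

end Pool.Agent.MWI.H60
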