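import Pool.Agent.MWI.StmtsT

/-!
# Squad MWI, row PRM: the order of the letters `z`
-/

set_option autoImplicit false

namespace Pool.Agent.MWI.H60

open Pool.Agent.Helper14_MV Pool.Agent.Helper2_MV Pool.Agent.MWF Pool.Agent.MWI

theorem prm_pr {L : List ℕ} {c : ℕ} (h : c ∈ pr L) :
    ∃ i ∈ L, c = 3 * i + 1 ∨ c = 3 * i + 2 := by
  unfold pr at h
  obtain ⟨i, hi, hc⟩ := List.mem_flatMap.1 h
  exact ⟨i, hi, by simpa using hc⟩

theorem prm_pl {L : List ℕ} {c : ℕ} (h : c ∈ pl L) :
    ∃ i ∈ L, c = 3 * i + 2 ∨ c = 3 * i + 1 := by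
  unfold pl at h
  obtain ⟨i, hi, hc⟩ := List.mem_flatMap.1 h
  exact ⟨i, hi, by simpa using hc⟩

theorem prm_zz {L : List ℕ} {c : ℕ} (h : c ∈ zz L) : ∃ i ∈ L, c = 3 * i + 2 := by
  unfold zz at h
  obtain ⟨i, hi, rfl⟩ := List.mem_map.1 h
  exact ⟨i, hi, rfl⟩

theorem prm_keep {L : List ℕ} (h : 0 ∉ L) : L.filter (fun c => decide (c ≠ 0)) = L := by
  rw [List.filter_eq_self]
  intro a ha
  have : a ≠ 0 := fun h0 => h (h0 ▸ ha)
  simpa using this

theorem prm_id (g : ℕ → List ℕ) {L : List ℕ} (h : ∀ c ∈ L, g c = [c]) : L.flatMap g = L := by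
  induction L with
  | nil => rfl
  | cons a L ih =>
    rw [List.flatMap_cons, h a (by simp), ih fun c hc => h c (List.mem_cons_of_mem _ hc)]
    rfl

theorem prm : PrmStmt := by
  intro β P Q h m hPQ hW
  have z0 : ∀ L : List ℕ, 0 ∉ zz L := fun L h0 => by
    obtain ⟨i, -, h1⟩ := prm_zz h0
    omega
  have p0 : ∀ L : List ℕ, 0 ∉ pl L := fun L h0 => by
    obtain ⟨i, -, h1⟩ := prm_pl h0
    omega
  have r0 : ∀ L : List ℕ, 0 ∉ pr L := fun L h0 => by
    obtain ⟨i, -, h1⟩ := prm_pr h0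
    omega
  have h1 : RR β (pl P ++ (zz (List.range m) ++ pr Q)) (pl P ++ (zz h ++ pr Q)) := by
    have h2 := RR.filter (fun c => decide (c ≠ 0)) hW
    unfold ww at h2
    simp only [List.filter_append, List.filter_cons, prm_keep (z0 _), prm_keep (p0 _),
      prm_keep (r0 _)] at h2
    simpa using h2
  have h3 : RR β (pl P ++ (zz (List.range m) ++ 0 :: 0 :: pr Q))
      (pl P ++ (zz h ++ 0 :: 0 :: pr Q)) := by
    rcases Q with _ | ⟨q, Q'⟩
    · have h4 := RR.append h1 (RR.refl (β := β) [0, 0])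
      have e : ∀ L : List ℕ, pl P ++ (zz L ++ pr []) ++ [0, 0] =
          pl P ++ (zz L ++ 0 :: 0 :: pr []) := by
        intro L
        simp [pr]
      rw [e, e] at h4
      exact h4
    · have hnd : (P ++ q :: Q').Nodup := hPQ.nodup_iff.2 List.nodup_range
      have hqP : q ∉ P := fun hq => by
        have := (List.nodup_append.1 hnd).2.2 q hq q (by simp)
        exact this rfl
      have hqQ : q ∉ Q' := (List.nodup_cons.1 (List.nodup_append.1 hnd).2.1).1
      obtain ⟨g, hg⟩ : ∃ g : ℕ → List ℕ, g = fun c => if c = 3 * q + 1 then [0, 0, 3 * q + 1]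
        else [c] := ⟨_, rfl⟩
      have g1 : g (3 * q + 1) = [0, 0, 3 * q + 1] := by rw [hg]; simp
      have g2 : ∀ c, c ≠ 3 * q + 1 → g c = [c] := fun c hc => by rw [hg]; simp [hc]
      have h4 := RR.sub g h1
      have e1 : (pl P).flatMap g = pl P := prm_id g fun c hc => by
        obtain ⟨i, hi, hc⟩ := prm_pl hc
        have : i ≠ q := fun h => hqP (h ▸ hi)
        exact g2 c (by omega)
      have e2 : ∀ L : List ℕ, (zz L).flatMap g = zz L := fun L => prm_id g fun c hc => by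
        obtain ⟨i, hi, hc⟩ := prm_zz hc
        exact g2 c (by omega)
      have e3 : (pr (q :: Q')).flatMap g = 0 :: 0 :: pr (q :: Q') := by
        have e4 : pr (q :: Q') = (3 * q + 1) :: (3 * q + 2) :: pr Q' := by simp [pr]
        have e5 : (pr Q').flatMap g = pr Q' := prm_id g fun c hc => by
          obtain ⟨i, hi, hc⟩ := prm_pr hc
          have : i ≠ q := fun h => hqQ (h ▸ hi)
          exact g2 c (by omega)
        rw [e4, List.flatMap_cons, List.flatMap_cons, g1, g2 _ (by omega), e5]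
        rfl
      simp only [List.flatMap_append, e1, e2, e3] at h4
      exact h4
  exact β.trans hW (RR.symm h3)

end Pool.Agent.MWI.H60
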